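import Pool.Agent.helper24.TG.S1

set_option linter.all false
set_option autoImplicit false

namespace Pool.Agent.helper24.TG

open Finset Classical

/-- `1 - exp(-x) ≥ x / 2` on the unit interval -/
theorem VS5_exp {x : ℝ} (h0 : 0 ≤ x) (h1 : x ≤ 1) : Real.exp (-x) ≤ 1 - x / 2 := by
  have h2 : Real.exp (-x) ≤ 1 / (1 + x) := by
    rw [Real.exp_neg, inv_eq_one_div]
    apply one_div_le_one_div_of_le (by linarith)
    linarith [Real.add_one_le_exp x]
  refine h2.trans ?_
  rw [div_le_iff₀ (by linarith)]
  nlinarith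

theorem VS5_step (hv1 : VS1_stmt) (hv2 : VS2_stmt) (O A : Type) [Fintype O] [DecidableEq O]
    [Fintype A] [DecidableEq A] [AddCommGroup A] (TT : Finset (Finset O)) (D : ℕ)
    (hCS : CS TT D) (hD : 3 * D + 1 ≤ Fintype.card A) (F : Finset O)
    (hF1 : ∀ S ∈ TT, (S ∩ F).card ≤ 1) (hF2 : ∀ o ∈ F, {o} ∉ TT) (o : O) (ho : o ∈ F)
    (G : (O → A) → ℝ) (hG0 : ∀ v, 0 ≤ G v) (hGo : Free G o) (hGF : ∀ o', o' ∉ F → Free G o')
    (a : A) :
    ∑ v ∈ Om A TT, G v ≤
      2 * (Fintype.card A : ℝ) * ∑ v ∈ Om A TT, (if v o = a then G v else 0) := by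
  have hcast : (3 * D + 1 : ℝ) ≤ Fintype.card A := by exact_mod_cast hD
  have h2 := hv2 O A TT o G (fun _ => a) hG0 hGo (fun v b => rfl)
  -- the invalid updates
  have hbad : ∑ v ∈ Om A TT, (if Function.update v o a ∈ Om A TT then 0 else G v) ≤
      (1 / 2 : ℝ) * ∑ v ∈ Om A TT, G v := by
    -- the members that contain `o`
    set T0 := TT.filter (fun S => o ∈ S) with hT0
    have hT0c : T0.card ≤ D := hCS.deg o
    have hch : ∀ S ∈ T0, ∃ o' ∈ S, o' ≠ o ∧ o' ∉ F := by
      intro S hS
      rw [hT0, Finset.mem_filter] at hS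
      obtain ⟨hST, hoS⟩ := hS
      have hc3 : S.card = 3 := by
        rcases hCS.odd S hST with h | h
        · exfalso
          obtain ⟨x, hx⟩ := Finset.card_eq_one.1 h
          rw [hx, Finset.mem_singleton] at hoS
          apply hF2 o ho
          rw [hoS, ← hx]
          exact hST
        · exact h
      have hne : ((S.erase o)).Nonempty := by
        rw [← Finset.card_pos, Finset.card_erase_of_mem hoS, hc3]
        norm_num
      obtain ⟨o', ho'⟩ := hne
      refine ⟨o', Finset.mem_of_mem_erase ho', Finset.ne_of_mem_erase ho', ?_⟩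
      intro ho'F
      have hsub : ({o, o'} : Finset O) ⊆ S ∩ F := by
        intro x hx
        simp only [Finset.mem_insert, Finset.mem_singleton] at hx
        rcases hx with rfl | rfl
        · exact Finset.mem_inter.2 ⟨hoS, ho⟩
        · exact Finset.mem_inter.2 ⟨Finset.mem_of_mem_erase ho', ho'F⟩
      have h3 := Finset.card_le_card hsub
      rw [Finset.card_pair (Finset.ne_of_mem_erase ho').symm] at h3
      have := hF1 S hST
      omega
    haveI : Nonempty O := ⟨o⟩
    choose! c hc1 hc2 hc3 using hch
    let z : Finset O → (O → A) → A := fun S v => -(a + ∑ x ∈ (S.erase o).erase (c S), v x)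
    have hzfree : ∀ S, Free (z S) (c S) := by
      intro S v b
      show -(a + ∑ x ∈ (S.erase o).erase (c S), Function.update v (c S) b x) = _
      congr 2
      apply Finset.sum_congr rfl
      intro x hx
      rw [Function.update_of_ne (Finset.ne_of_mem_erase hx)]
    have key : ∀ v ∈ Om A TT, (if Function.update v o a ∈ Om A TT then 0 else G v) ≤
        ∑ S ∈ T0, (if v (c S) = z S v then G v else 0) := by
      intro v hv
      by_cases hu : Function.update v o a ∈ Om A TT
      · rw [if_pos hu]
        apply Finset.sum_nonneg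
        intro S _
        split_ifs
        · exact hG0 v
        · exact le_refl _
      · rw [if_neg hu]
        rw [mem_Om] at hu hv
        obtain ⟨S, hST, hS0⟩ : ∃ S ∈ TT, ∑ x ∈ S, Function.update v o a x = 0 := by
          by_contra hcon
          apply hu
          intro S hS h0
          exact hcon ⟨S, hS, h0⟩
        have hoS : o ∈ S := by
          by_contra hcon
          apply hv S hST
          rw [← hS0]
          apply Finset.sum_congr rfl
          intro x hx
          rw [Function.update_of_ne]
          rintro rfl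
          exact hcon hx
        have hS : S ∈ T0 := by rw [hT0]; exact Finset.mem_filter.2 ⟨hST, hoS⟩
        have hval : v (c S) = z S v := by
          have h4 : ∑ x ∈ S, Function.update v o a x =
              a + ∑ x ∈ S.erase o, v x := by
            rw [← Finset.add_sum_erase S _ hoS, Function.update_self]
            congr 1
            apply Finset.sum_congr rfl
            intro x hx
            rw [Function.update_of_ne (Finset.ne_of_mem_erase hx)]
          have h5 : c S ∈ S.erase o := Finset.mem_erase.2 ⟨hc2 S hS, hc1 S hS⟩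
          rw [h4, ← Finset.add_sum_erase _ _ h5] at hS0
          show v (c S) = -(a + ∑ x ∈ (S.erase o).erase (c S), v x)
          rw [eq_neg_iff_add_eq_zero, ← hS0]
          abel
        calc G v = (if v (c S) = z S v then G v else 0) := by rw [if_pos hval]
          _ ≤ _ := Finset.single_le_sum (f := fun S => if v (c S) = z S v then G v else 0)
              (fun S' _ => by
                split_ifs
                · exact hG0 v
                · exact le_refl _) hS
    have hS1 : ∀ S ∈ T0, ((Fintype.card A : ℝ) - D) *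
        ∑ v ∈ Om A TT, (if v (c S) = z S v then G v else 0) ≤ ∑ v ∈ Om A TT, G v := by
      intro S hS
      exact hv1 O A TT D hCS (by omega) (c S) G (z S) hG0 (hGF _ (hc3 S hS)) (hzfree S)
    have hGs : 0 ≤ ∑ v ∈ Om A TT, G v := Finset.sum_nonneg (fun v _ => hG0 v)
    have hpos : (0 : ℝ) < (Fintype.card A : ℝ) - D := by
      have : (0 : ℝ) ≤ D := Nat.cast_nonneg D
      linarith
    calc ∑ v ∈ Om A TT, (if Function.update v o a ∈ Om A TT then 0 else G v)
        ≤ ∑ v ∈ Om A TT, ∑ S ∈ T0, (if v (c S) = z S v then G v else 0) :=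
          Finset.sum_le_sum key
      _ = ∑ S ∈ T0, ∑ v ∈ Om A TT, (if v (c S) = z S v then G v else 0) :=
          Finset.sum_comm
      _ ≤ ∑ S ∈ T0, (∑ v ∈ Om A TT, G v) / ((Fintype.card A : ℝ) - D) := by
          apply Finset.sum_le_sum
          intro S hS
          rw [le_div_iff₀ hpos, mul_comm]
          exact hS1 S hS
      _ = T0.card * ((∑ v ∈ Om A TT, G v) / ((Fintype.card A : ℝ) - D)) := by
          rw [Finset.sum_const, nsmul_eq_mul]
      _ ≤ D * ((∑ v ∈ Om A TT, G v) / ((Fintype.card A : ℝ) - D)) := by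
          apply mul_le_mul_of_nonneg_right
          · exact_mod_cast hT0c
          · exact div_nonneg hGs hpos.le
      _ = (D / ((Fintype.card A : ℝ) - D)) * (∑ v ∈ Om A TT, G v) := by ring
      _ ≤ (1 / 2 : ℝ) * ∑ v ∈ Om A TT, G v := by
          apply mul_le_mul_of_nonneg_right _ hGs
          rw [div_le_iff₀ hpos]
          linarith
  have hsplit : ∑ v ∈ Om A TT, G v =
      ∑ v ∈ Om A TT, (if Function.update v o a ∈ Om A TT then G v else 0) +
      ∑ v ∈ Om A TT, (if Function.update v o a ∈ Om A TT then 0 else G v) := by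
    rw [← Finset.sum_add_distrib]
    apply Finset.sum_congr rfl
    intro v _
    split_ifs <;> simp
  have h2' : ∑ v ∈ Om A TT, (if Function.update v o a ∈ Om A TT then G v else 0) ≤
      (Fintype.card A : ℝ) * ∑ v ∈ Om A TT, (if v o = a then G v else 0) := h2
  linarith

theorem VS5 (hv1 : VS1_stmt) (hv2 : VS2_stmt) : VS5_stmt := by
  intro O A _ _ _ _ _ TT D hCS hD F mu R hR hF1 hF2 hmu
  have hcA : (0 : ℝ) < Fintype.card A := by
    have : 0 < Fintype.card A := by omega
    exact_mod_cast this
  set cA : ℝ := (Fintype.card A : ℝ) with hcAd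
  -- exponential moments
  have hmom : ∀ F' : Finset O, F' ⊆ F →
      ∑ v ∈ Om A TT, ∏ o ∈ F', Real.exp (-(mu o (v o) / R)) ≤
        (∏ o ∈ F', Real.exp (-((∑ a, mu o a) / (4 * cA * R)))) * (Om A TT).card := by
    intro F'
    induction F' using Finset.induction_on with
    | empty =>
      intro _
      simp
    | insert o F'' hoF ih =>
      intro hsub
      have hoF' : o ∈ F := hsub (Finset.mem_insert_self _ _)
      have hsub' : F'' ⊆ F := fun x hx => hsub (Finset.mem_insert_of_mem hx)
      have ih' := ih hsub'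
      set G : (O → A) → ℝ := fun v => ∏ o' ∈ F'', Real.exp (-(mu o' (v o') / R)) with hG
      have hG0 : ∀ v, 0 ≤ G v := fun v => Finset.prod_nonneg (fun _ _ => (Real.exp_pos _).le)
      have hGfree : ∀ o', o' ∉ F'' → Free G o' := by
        intro o' ho' v b
        show ∏ o'' ∈ F'', Real.exp (-(mu o'' (Function.update v o' b o'') / R)) = _
        apply Finset.prod_congr rfl
        intro x hx
        rw [Function.update_of_ne]
        rintro rfl
        exact ho' hx
      have hstep : ∀ a : A, ∑ v ∈ Om A TT, G v ≤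
          2 * cA * ∑ v ∈ Om A TT, (if v o = a then G v else 0) :=
        fun a => VS5_step hv1 hv2 O A TT D hCS hD F hF1 hF2 o hoF' G hG0 (hGfree o hoF)
          (fun o' ho' => hGfree o' (fun h => ho' (hsub' h))) a
      have h1 : ∑ v ∈ Om A TT, ∏ o' ∈ insert o F'', Real.exp (-(mu o' (v o') / R)) ≤
          ∑ v ∈ Om A TT, G v - ∑ v ∈ Om A TT, G v * (mu o (v o) / (2 * R)) := by
        rw [← Finset.sum_sub_distrib]
        apply Finset.sum_le_sum
        intro v _
        rw [Finset.prod_insert hoF]
        have hx0 : 0 ≤ mu o (v o) / R := div_nonneg (hmu o (v o)).1 hR.le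
        have hx1 : mu o (v o) / R ≤ 1 := by
          rw [div_le_one hR]; exact (hmu o (v o)).2
        have h3 := VS5_exp hx0 hx1
        calc Real.exp (-(mu o (v o) / R)) * ∏ o' ∈ F'', Real.exp (-(mu o' (v o') / R))
            ≤ (1 - mu o (v o) / R / 2) * G v := mul_le_mul_of_nonneg_right h3 (hG0 v)
          _ = G v - G v * (mu o (v o) / (2 * R)) := by
              field_simp
      have h2 : ∑ v ∈ Om A TT, G v * (mu o (v o) / (2 * R)) =
          ∑ a, (mu o a / (2 * R)) * ∑ v ∈ Om A TT, (if v o = a then G v else 0) := by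
        simp_rw [Finset.mul_sum]
        rw [Finset.sum_comm]
        apply Finset.sum_congr rfl
        intro v _
        simp_rw [mul_ite, mul_zero]
        rw [Finset.sum_ite_eq]
        simp [mul_comm]
      have h3 : (∑ a, mu o a) / (4 * cA * R) * ∑ v ∈ Om A TT, G v ≤
          ∑ v ∈ Om A TT, G v * (mu o (v o) / (2 * R)) := by
        rw [h2, Finset.sum_div, Finset.sum_mul]
        apply Finset.sum_le_sum
        intro a _
        have h4 : 0 ≤ mu o a / (2 * R) := div_nonneg (hmu o a).1 (by linarith)
        have h5 := mul_le_mul_of_nonneg_left (hstep a)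
          (show 0 ≤ mu o a / (4 * cA * R) from div_nonneg (hmu o a).1 (by positivity))
        refine h5.trans (le_of_eq ?_)
        field_simp
        ring
      have hGs : 0 ≤ ∑ v ∈ Om A TT, G v := Finset.sum_nonneg (fun v _ => hG0 v)
      rw [Finset.prod_insert hoF]
      have h6 : 1 - (∑ a, mu o a) / (4 * cA * R) ≤
          Real.exp (-((∑ a, mu o a) / (4 * cA * R))) := by
        have := Real.add_one_le_exp (-((∑ a, mu o a) / (4 * cA * R)))
        linarith
      calc ∑ v ∈ Om A TT, ∏ o' ∈ insert o F'', Real.exp (-(mu o' (v o') / R))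
          ≤ (1 - (∑ a, mu o a) / (4 * cA * R)) * ∑ v ∈ Om A TT, G v := by
            rw [sub_mul, one_mul]; linarith
        _ ≤ Real.exp (-((∑ a, mu o a) / (4 * cA * R))) * ∑ v ∈ Om A TT, G v :=
            mul_le_mul_of_nonneg_right h6 hGs
        _ ≤ Real.exp (-((∑ a, mu o a) / (4 * cA * R))) *
            ((∏ o ∈ F'', Real.exp (-((∑ a, mu o a) / (4 * cA * R)))) * (Om A TT).card) :=
            mul_le_mul_of_nonneg_left ih' (Real.exp_pos _).le
        _ = _ := by ring
  have hm := hmom F (Finset.Subset.refl F)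
  rw [← Real.exp_sum] at hm
  set M : ℝ := ∑ o ∈ F, ∑ a, mu o a with hM
  have hexp : ∑ o ∈ F, -((∑ a, mu o a) / (4 * cA * R)) = -(M / (4 * cA * R)) := by
    rw [Finset.sum_neg_distrib, ← Finset.sum_div]
  rw [hexp] at hm
  -- Markov
  set Bd := (Om A TT).filter (fun v => 8 * cA * ∑ o ∈ F, mu o (v o) ≤ M) with hBd
  have hmk : (Bd.card : ℝ) * Real.exp (-(M / (8 * cA * R))) ≤
      ∑ v ∈ Om A TT, ∏ o ∈ F, Real.exp (-(mu o (v o) / R)) := by
    calc (Bd.card : ℝ) * Real.exp (-(M / (8 * cA * R)))
        = ∑ v ∈ Bd, Real.exp (-(M / (8 * cA * R))) := by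
          rw [Finset.sum_const, nsmul_eq_mul]
      _ ≤ ∑ v ∈ Bd, ∏ o ∈ F, Real.exp (-(mu o (v o) / R)) := by
          apply Finset.sum_le_sum
          intro v hv
          rw [← Real.exp_sum]
          apply Real.exp_le_exp.2
          rw [Finset.sum_neg_distrib, neg_le_neg_iff, ← Finset.sum_div,
            div_le_div_iff₀ hR (by positivity)]
          have := (Finset.mem_filter.1 hv).2
          nlinarith
      _ ≤ _ := Finset.sum_le_sum_of_subset_of_nonneg (Finset.filter_subset _ _)
          (fun v _ _ => Finset.prod_nonneg (fun _ _ => (Real.exp_pos _).le))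
  have hfin := hmk.trans hm
  have e1 : Real.exp (-(M / (4 * cA * R))) =
      Real.exp (-(M / (8 * cA * R))) * Real.exp (-(M / (8 * cA * R))) := by
    rw [← Real.exp_add]
    congr 1
    field_simp
    ring
  rw [e1] at hfin
  have hE : 0 < Real.exp (-(M / (8 * cA * R))) := Real.exp_pos _
  have h7 : (Bd.card : ℝ) ≤ Real.exp (-(M / (8 * cA * R))) * (Om A TT).card := by
    have : Real.exp (-(M / (8 * cA * R))) * (Bd.card : ℝ) ≤
        Real.exp (-(M / (8 * cA * R))) * (Real.exp (-(M / (8 * cA * R))) * (Om A TT).card) := by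
      linarith
    exact le_of_mul_le_mul_left this hE
  have h8 : Real.exp (-(M / (8 * cA * R))) * Real.exp (M / (8 * cA * R)) = 1 := by
    rw [← Real.exp_add]; simp
  calc (Bd.card : ℝ) * Real.exp (M / (8 * cA * R))
      ≤ (Real.exp (-(M / (8 * cA * R))) * (Om A TT).card) * Real.exp (M / (8 * cA * R)) :=
        mul_le_mul_of_nonneg_right h7 (Real.exp_pos _).le
    _ = (Om A TT).card := by rw [mul_right_comm, h8, one_mul]

end Pool.Agent.helper24.TG
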