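import Pool.Agent.helper43.TG.Spec

set_option autoImplicit false

namespace Pool.Agent.helper43.TG

open Finset

theorem CNT_pair {α : Type} [DecidableEq α] (Y : Finset α) (t : ℕ) (i j : Fin t) (hij : i ≠ j) :
    ((Fintype.piFinset fun _ : Fin t => Y).filter fun X => X i = X j).card ≤ Y.card ^ (t - 1) := by
  classical
  have h1 : Fintype.card {k : Fin t // k ≠ j} = t - 1 := by
    rw [Fintype.card_subtype_compl, Fintype.card_fin]
    simp
  have h2 : (Fintype.piFinset fun _ : {k : Fin t // k ≠ j} => Y).card = Y.card ^ (t - 1) := by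
    rw [Fintype.card_piFinset, Finset.prod_const, Finset.card_univ, h1]
  rw [← h2]
  refine Finset.card_le_card_of_injOn (fun X k => X k.1) ?_ ?_
  · intro X hX
    rw [Finset.mem_coe, Finset.mem_filter, Fintype.mem_piFinset] at hX
    rw [Finset.mem_coe, Fintype.mem_piFinset]
    exact fun k => hX.1 k.1
  · intro X hX X' hX' h
    rw [Finset.mem_coe, Finset.mem_filter] at hX hX'
    funext k
    by_cases hk : k = j
    · rw [hk, ← hX.2, ← hX'.2]
      exact congrFun h ⟨i, hij⟩
    · exact congrFun h ⟨k, hk⟩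

theorem CNT_noninj {α : Type} [DecidableEq α] (Y : Finset α) (t : ℕ) :
    ((Fintype.piFinset fun _ : Fin t => Y).filter fun X => ¬ Function.Injective X).card ≤
      t ^ 2 * Y.card ^ (t - 1) := by
  classical
  have hsub : ((Fintype.piFinset fun _ : Fin t => Y).filter fun X => ¬ Function.Injective X) ⊆
      ((Finset.univ : Finset (Fin t × Fin t)).filter fun q => q.1 ≠ q.2).biUnion fun q =>
        (Fintype.piFinset fun _ : Fin t => Y).filter fun X => X q.1 = X q.2 := by
    intro X hX
    rw [Finset.mem_filter] at hX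
    obtain ⟨h1, h2⟩ := hX
    unfold Function.Injective at h2
    push Not at h2
    obtain ⟨i, j, hij, hne⟩ := h2
    rw [Finset.mem_biUnion]
    exact ⟨(i, j), by simp [hne], by rw [Finset.mem_filter]; exact ⟨h1, hij⟩⟩
  refine (Finset.card_le_card hsub).trans (Finset.card_biUnion_le.trans ?_)
  have h3 : ∀ q ∈ (Finset.univ : Finset (Fin t × Fin t)).filter fun q => q.1 ≠ q.2,
      ((Fintype.piFinset fun _ : Fin t => Y).filter fun X => X q.1 = X q.2).card ≤ Y.card ^ (t - 1) := by
    intro q hq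
    rw [Finset.mem_filter] at hq
    exact CNT_pair Y t q.1 q.2 hq.2
  refine (Finset.sum_le_sum h3).trans ?_
  rw [Finset.sum_const, smul_eq_mul]
  refine Nat.mul_le_mul_right _ ?_
  refine (Finset.card_filter_le _ _).trans ?_
  rw [Finset.card_univ, Fintype.card_prod, Fintype.card_fin, sq]

theorem t_cnt : CNT := by
  classical
  intro α _ Y R _ t K ht hK hX
  set d : α → ℝ := fun y => ((Y.filter (fun x => R x y)).card : ℝ) with hd
  obtain ⟨n, rfl⟩ : ∃ n, t = n + 1 := ⟨t - 1, by omega⟩
  have hT0 : (0 : ℝ) ≤ Y.card := Nat.cast_nonneg _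
  -- power mean
  have hpm : (∑ y ∈ Y, d y) ^ (n + 1) ≤ (Y.card : ℝ) ^ n * ∑ y ∈ Y, d y ^ (n + 1) :=
    pow_sum_le_card_mul_sum_pow (s := Y) (f := d) (fun i _ => Nat.cast_nonneg _) n
  -- double counting
  have hdc : ∑ y ∈ Y, d y ^ (n + 1) = ∑ X ∈ Fintype.piFinset fun _ : Fin (n + 1) => Y,
      ((Y.filter (fun y => ∀ i, R (X i) y)).card : ℝ) := by
    have h1 : ∀ y ∈ Y, d y ^ (n + 1) = ∑ X ∈ Fintype.piFinset fun _ : Fin (n + 1) => Y,
        (if ∀ i, R (X i) y then (1 : ℝ) else 0) := by
      intro y _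
      rw [Finset.sum_boole]
      have h2 : ((Fintype.piFinset fun _ : Fin (n + 1) => Y).filter fun X => ∀ i, R (X i) y) =
          Fintype.piFinset fun _ : Fin (n + 1) => Y.filter fun x => R x y := by
        ext X
        simp only [Finset.mem_filter, Fintype.mem_piFinset]
        constructor
        · rintro ⟨h3, h4⟩ i
          exact ⟨h3 i, h4 i⟩
        · intro h3
          exact ⟨fun i => (h3 i).1, fun i => (h3 i).2⟩
      rw [h2, Fintype.card_piFinset, Finset.prod_const, Finset.card_univ, Fintype.card_fin, hd]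
      push_cast
      rfl
    rw [Finset.sum_congr rfl h1, Finset.sum_comm]
    refine Finset.sum_congr rfl fun X _ => ?_
    rw [Finset.sum_boole]
  have hsplit : ∑ X ∈ Fintype.piFinset fun _ : Fin (n + 1) => Y,
      ((Y.filter (fun y => ∀ i, R (X i) y)).card : ℝ) ≤
      (Y.card : ℝ) ^ (n + 1) * (K + ((n + 1 : ℕ) : ℝ) ^ 2) := by
    rw [← Finset.sum_filter_add_sum_filter_not (Fintype.piFinset fun _ : Fin (n + 1) => Y)
      (fun X => Function.Injective X)]
    have e1 : ∑ X ∈ (Fintype.piFinset fun _ : Fin (n + 1) => Y).filter fun X => Function.Injective X,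
        ((Y.filter (fun y => ∀ i, R (X i) y)).card : ℝ) ≤ (Y.card : ℝ) ^ (n + 1) * K := by
      have h1 : ∀ X ∈ (Fintype.piFinset fun _ : Fin (n + 1) => Y).filter fun X => Function.Injective X,
          ((Y.filter (fun y => ∀ i, R (X i) y)).card : ℝ) ≤ K := by
        intro X hX'
        rw [Finset.mem_filter, Fintype.mem_piFinset] at hX'
        exact hX X hX'.2 hX'.1
      refine (Finset.sum_le_sum h1).trans ?_
      rw [Finset.sum_const, nsmul_eq_mul]
      refine mul_le_mul_of_nonneg_right ?_ hK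
      have h2 : ((Fintype.piFinset fun _ : Fin (n + 1) => Y).filter fun X => Function.Injective X).card ≤
          Y.card ^ (n + 1) := by
        refine (Finset.card_filter_le _ _).trans (le_of_eq ?_)
        rw [Fintype.card_piFinset, Finset.prod_const, Finset.card_univ, Fintype.card_fin]
      exact_mod_cast h2
    have e2 : ∑ X ∈ (Fintype.piFinset fun _ : Fin (n + 1) => Y).filter fun X => ¬ Function.Injective X,
        ((Y.filter (fun y => ∀ i, R (X i) y)).card : ℝ) ≤
        (Y.card : ℝ) ^ (n + 1) * ((n + 1 : ℕ) : ℝ) ^ 2 := by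
      have h1 : ∀ X ∈ (Fintype.piFinset fun _ : Fin (n + 1) => Y).filter fun X => ¬ Function.Injective X,
          ((Y.filter (fun y => ∀ i, R (X i) y)).card : ℝ) ≤ (Y.card : ℝ) := by
        intro X _
        exact_mod_cast Finset.card_filter_le _ _
      refine (Finset.sum_le_sum h1).trans ?_
      rw [Finset.sum_const, nsmul_eq_mul]
      have h2 := CNT_noninj Y (n + 1)
      have h3 : (((Fintype.piFinset fun _ : Fin (n + 1) => Y).filter fun X => ¬ Function.Injective X).card : ℝ) ≤
          ((n + 1 : ℕ) : ℝ) ^ 2 * (Y.card : ℝ) ^ n := by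
        exact_mod_cast h2
      calc (((Fintype.piFinset fun _ : Fin (n + 1) => Y).filter fun X => ¬ Function.Injective X).card : ℝ) *
          (Y.card : ℝ) ≤ (((n + 1 : ℕ) : ℝ) ^ 2 * (Y.card : ℝ) ^ n) * (Y.card : ℝ) :=
            mul_le_mul_of_nonneg_right h3 hT0
        _ = (Y.card : ℝ) ^ (n + 1) * ((n + 1 : ℕ) : ℝ) ^ 2 := by ring
    rw [mul_add]
    exact add_le_add e1 e2
  have hexp : 2 * (n + 1) - 1 = n + (n + 1) := by omega
  rw [hexp]
  calc (∑ y ∈ Y, d y) ^ (n + 1) ≤ (Y.card : ℝ) ^ n * ∑ y ∈ Y, d y ^ (n + 1) := hpm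
    _ ≤ (Y.card : ℝ) ^ n * ((Y.card : ℝ) ^ (n + 1) * (K + ((n + 1 : ℕ) : ℝ) ^ 2)) := by
        rw [hdc]
        exact mul_le_mul_of_nonneg_left hsplit (by positivity)
    _ = (Y.card : ℝ) ^ (n + (n + 1)) * (K + ((n + 1 : ℕ) : ℝ) ^ 2) := by ring

end Pool.Agent.helper43.TG
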