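import Pool.Agent.helper43.TG.Spec

set_option autoImplicit false

namespace Pool.Agent.helper43.TG

theorem t_jen : JEN := by
  classical
  intro V k h D L hk hL
  have hk0 : (0 : ℝ) < k := by exact_mod_cast hk
  have hc : ∀ u ∈ D, (2 * ((h : ℝ) + 1)) ≤ ((L u).card : ℝ) := by
    intro u hu
    exact_mod_cast hL u hu
  have hh : (0 : ℝ) ≤ h := Nat.cast_nonneg h
  set t : V → ℝ := fun u => 1 / (((L u).card : ℝ) - h - 1) with ht
  set x : Fin k → ℝ := fun g => ∑ u ∈ D, (if g ∈ L u then t u else 0) with hx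
  set m : ℝ := 2 * (D.card : ℝ) / k with hm
  have h1 : ∀ g : Fin k, Real.exp (-x g) ≤ ∏ u ∈ D, (if g ∈ L u then (1 - 1 / (((L u).card : ℝ) - h)) else 1) := by
    intro g
    have e1 : -x g = ∑ u ∈ D, -(if g ∈ L u then t u else 0) := by
      rw [hx, Finset.sum_neg_distrib]
    rw [e1, Real.exp_sum]
    refine Finset.prod_le_prod (fun u _ => (Real.exp_pos _).le) fun u hu => ?_
    split_ifs with hg
    · have h2 := hc u hu
      have ha : 0 < ((L u).card : ℝ) - h - 1 := by linarith
      have h3 : t u + 1 ≤ Real.exp (t u) := Real.add_one_le_exp (t u)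
      have h4 : t u + 1 = (((L u).card : ℝ) - h) / (((L u).card : ℝ) - h - 1) := by
        rw [ht]
        field_simp
        ring
      rw [h4] at h3
      rw [Real.exp_neg]
      have ha2 : 0 < ((L u).card : ℝ) - h := by linarith
      have h5 : (Real.exp (t u))⁻¹ ≤ ((((L u).card : ℝ) - h) / (((L u).card : ℝ) - h - 1))⁻¹ :=
        inv_anti₀ (by positivity) h3
      refine h5.trans (le_of_eq ?_)
      rw [inv_div]
      field_simp
    · simp
  have h2 : ∀ g : Fin k, Real.exp (-m) * (1 + (m - x g)) ≤ Real.exp (-x g) := by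
    intro g
    have e1 : Real.exp (-x g) = Real.exp (-m) * Real.exp (m - x g) := by
      rw [← Real.exp_add]
      congr 1
      ring
    rw [e1]
    refine mul_le_mul_of_nonneg_left ?_ (Real.exp_pos _).le
    linarith [Real.add_one_le_exp (m - x g)]
  have h3 : ∑ g : Fin k, x g ≤ 2 * (D.card : ℝ) := by
    rw [hx, Finset.sum_comm]
    have h4 : ∀ u ∈ D, ∑ g : Fin k, (if g ∈ L u then t u else 0) ≤ 2 := by
      intro u hu
      rw [← Finset.sum_filter, Finset.sum_const, nsmul_eq_mul]
      have e1 : (Finset.univ.filter fun g => g ∈ L u) = L u := by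
        ext g
        simp
      rw [e1, ht]
      have h5 := hc u hu
      have ha : 0 < ((L u).card : ℝ) - h - 1 := by linarith
      rw [mul_one_div, div_le_iff₀ ha]
      linarith
    calc ∑ u ∈ D, ∑ g : Fin k, (if g ∈ L u then t u else 0) ≤ ∑ _u ∈ D, (2 : ℝ) := Finset.sum_le_sum h4
      _ = 2 * (D.card : ℝ) := by rw [Finset.sum_const, nsmul_eq_mul, mul_comm]
  calc (k : ℝ) * Real.exp (-(2 * (D.card : ℝ)) / k)
      = Real.exp (-m) * k := by
        rw [hm, mul_comm, neg_div]
    _ ≤ Real.exp (-m) * (k + (k * m - ∑ g : Fin k, x g)) := by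
        refine mul_le_mul_of_nonneg_left ?_ (Real.exp_pos _).le
        have e1 : (k : ℝ) * m = 2 * (D.card : ℝ) := by
          rw [hm]
          field_simp
        rw [e1]
        linarith
    _ = ∑ g : Fin k, Real.exp (-m) * (1 + (m - x g)) := by
        rw [← Finset.mul_sum, Finset.sum_add_distrib, Finset.sum_sub_distrib]
        simp
    _ ≤ ∑ g : Fin k, Real.exp (-x g) := Finset.sum_le_sum fun g _ => h2 g
    _ ≤ _ := Finset.sum_le_sum fun g _ => h1 g

end Pool.Agent.helper43.TG
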