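import Pool.Agent.helper43.TG.Spec

set_option autoImplicit false

namespace Pool.Agent.helper43.TG

open Pool.Agent.helper70.Sachs (IsPacking touchingGraph chi)

theorem t_trv (hg : GRD) (hc : CPT) : TRV := by
  classical
  intro n d M hM h
  refine hc n (d + 1) M fun F hF => ?_
  have : Fintype (↥(F : Set (E n))) := inferInstance
  refine hg (↥(F : Set (E n))) (touchingGraph (F : Set (E n))) d fun v => ?_
  have h1 := h v.1 (hF v.2) ((Finset.univ.filter fun u => (touchingGraph (F : Set (E n))).Adj v u).image
    fun u => u.1) ?_
  · rwa [Finset.card_image_of_injective _ Subtype.val_injective] at h1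
  · intro y hy
    rw [Finset.mem_image] at hy
    obtain ⟨u, hu, rfl⟩ := hy
    rw [Finset.mem_filter] at hu
    refine ⟨hF u.2, ?_⟩
    have h2 := hu.2
    rw [dist_comm]
    exact h2
end Pool.Agent.helper43.TG
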